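import Pool.Agent.helper84.NR.SpecW

set_option autoImplicit false

/-!
# Row CLSW of project NRW (MP_133bfc_co)
-/

namespace Pool.Agent.helper84.NR

open scoped Classical
open Finset

theorem CLSW (hCXE : CXE_stmt) (hCLO : CLO_stmt) (hWLXW : WLXW_stmt) (hWLKW : WLKW_stmt)
    (hVXSW : VXSW_stmt) : CLSW_stmt := by
  intro V F _ _ M x y J hT q hq0
  have key : ∀ v, (∃ A', OnV M.toCyc A' x ∧ OnV M.toCyc A' v) → (∃ B ∈ J, OnV M.toCyc B v) →
      ∀ e, v ∈ e → cx M x e → Has M x y J q e →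
      ∃ B ∈ J, ∃ k1, gp M x y B k1 ∧ (v = ww M y B k1 ∨ ∃ k2, k1 < k2 ∧ sh M x y B k2 ∧
        (∀ i, k1 < i → i < k2 → ¬ sh M x y B i) ∧ v = ww M y B k2) ∧
        Has M x y J q s(ww M y B k1, ww M y B (k1 + 1)) := by
    intro v hv hJ e hve hcx hg
    obtain ⟨B, hB, k, hk, hvk, -, hg'⟩ := hVXSW V F M x y J hT q hq0 v hJ e hve hcx hg
    obtain ⟨k1, hk1, hno, hgp, hg1⟩ := hWLKW V F M x y J hT q hq0 B hB k hk hg'
    obtain ⟨⟨a, hak, ha⟩, b, hkb, hb⟩ := hk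
    refine ⟨B, hB, k1, hgp, ?_, hg1⟩
    rcases Sym2.mem_iff.1 hvk with h | h
    · have hs : sh M x y B k :=
        ⟨le_trans ha.1 hak, lt_trans hkb hb.2.1, by rw [← h]; exact hv⟩
      have h3 : k = k1 := by
        by_contra hne
        exact hno k (lt_of_le_of_ne hk1 (Ne.symm hne)) le_rfl hs
      left
      rw [h, h3]
    · have hs : sh M x y B (k + 1) :=
        ⟨by omega, lt_of_le_of_lt hkb hb.2.1, by rw [← h]; exact hv⟩
      right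
      exact ⟨k + 1, by omega, hs, fun i h1 h2 => hno i h1 (by omega), h⟩
  have hmem : ∀ B ∈ J, ∀ k, gp M x y B k → (⟨B, k⟩ : (_ : F) × ℕ) ∈ gaps M x y J := by
    intro B hB k hk
    unfold gaps
    rw [mem_sigma]
    refine ⟨hB, ?_⟩
    rw [mem_filter, mem_range]
    exact ⟨hk.1.2.1, hk⟩
  -- a face at `y` with a vertex on a face at `x` is in `J`
  have inJ : ∀ B v, OnV M.toCyc B y → OnV M.toCyc B v → (∃ A, OnV M.toCyc A x ∧ OnV M.toCyc A v) →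
      B ∈ J := by
    rintro B v hBy hBv ⟨A, hAx, hAv⟩
    apply hT.ja B hBy
    obtain ⟨-, hvert, -, -, -⟩ := h_IDX V F M.toCyc B (st M y B)
    obtain ⟨a, ha, hav⟩ := hvert v hBv
    obtain ⟨hy0, -⟩ := h_WW0 V F M y B hBy
    have hav' : ww M y B a = v := hav
    refine ⟨a, ?_, ha, A, hAx, by rw [hav']; exact hAv⟩
    by_contra h0
    have h0' : a = 0 := by omega
    subst h0'
    rw [hy0] at hav'
    exact hT.ne A ⟨hAx, by rw [hav']; exact hAv⟩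
  -- an edge of `C_X` with `Has q` and an end on a face at `y`
  have hex : ∃ A e v, OnV M.toCyc A x ∧ OnE M.toCyc A e ∧ x ∉ e ∧ Has M x y J q e ∧ v ∈ e ∧
      ∃ B, OnV M.toCyc B y ∧ OnV M.toCyc B v := by
    by_contra hcon
    push Not at hcon
    refine hCLO V F M x y J hT q hq0 Set.univ ?_ ?_
    · obtain ⟨e, ⟨hxe, A, hAx, hAe⟩, hq⟩ := hCXE V F M x y J hT q hq0
      exact ⟨A, e, Set.mem_univ _, hAx, hAe, hxe, hq⟩
    · intro A e v _ hAx hAe hxe hq hve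
      refine ⟨?_, fun _ _ _ => Set.mem_univ _⟩
      rintro ⟨B, hBy, hBv⟩
      exact hcon A e v hAx hAe hxe hq hve B hBy hBv
  obtain ⟨A, e, v, hAx, hAe, hxe, hq, hve, B0, hB0y, hB0v⟩ := hex
  obtain ⟨hinj, -, hedge, -, -⟩ := h_IDX V F M.toCyc A (st M x A)
  obtain ⟨a, ha, rfl⟩ := hedge e hAe
  obtain ⟨hx0, hxl⟩ := h_WW0 V F M x A hAx
  have hAv : OnV M.toCyc A v := by
    rcases Sym2.mem_iff.1 hve with h | h
    · rw [h]; exact ⟨_, rfl⟩
    · rw [h]; exact ⟨_, rfl⟩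
  obtain ⟨B', hB', k', hgp', -, hg'⟩ := key v ⟨A, hAx, hAv⟩ ⟨B0, inJ B0 v hB0y hB0v ⟨A, hAx, hAv⟩, hB0v⟩ _ hve
    ⟨hxe, A, hAx, hAe⟩ hq
  have gapE : ∃ c1 ∈ gaps M x y J, Has M x y J q s(ww M y c1.1 c1.2, ww M y c1.1 (c1.2 + 1)) :=
    ⟨⟨B', k'⟩, hmem B' hB' k' hgp', hg'⟩
  have hnx : ∀ i, 1 ≤ i → i < M.len A → ww M x A i ≠ x := by
    intro i hi1 hi2 h
    have h3 : M.bd A (st M x A + i) = M.bd A (st M x A + 0) := h.trans hx0.symm
    have h4 := hinj i 0 hi2 (by omega) h3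
    omega
  have ha1 : 1 ≤ a := by
    by_contra hcon
    have h0 : a = 0 := by omega
    subst h0
    exact hxe (Sym2.mem_iff.2 (Or.inl hx0.symm))
  have ha2 : a + 1 < M.len A := by
    by_contra hcon
    have h0 : a + 1 = M.len A := by omega
    refine hxe (Sym2.mem_iff.2 (Or.inr ?_))
    have h3 : ww M x A (a + 1) = x := by rw [h0]; exact hxl
    exact h3.symm
  obtain ⟨i1, i2, h11, h12, h21, h22, hJ1, hJ2, hq1, hq2⟩ :=
    hWLXW V F M x y J hT q hq0 A hAx a ha1 ha2 hq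
  have hA1 : OnV M.toCyc A (ww M x A i1) := ⟨_, rfl⟩
  have hA2 : OnV M.toCyc A (ww M x A i2) := ⟨_, rfl⟩
  have hne : ww M x A i1 ≠ ww M x A i2 := by
    intro h
    have := hinj i1 i2 (by omega) h22 h
    omega
  have hc1 : cx M x s(ww M x A i1, ww M x A (i1 + 1)) := by
    refine ⟨?_, A, hAx, st M x A + i1, rfl⟩
    intro h
    rcases Sym2.mem_iff.1 h with h | h
    · exact hnx i1 h11 (by omega) h.symm
    · exact hnx (i1 + 1) (by omega) (by omega) h.symm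
  have hc2 : cx M x s(ww M x A (i2 - 1), ww M x A i2) := by
    refine ⟨?_, A, hAx, st M x A + (i2 - 1), ?_⟩
    · intro h
      rcases Sym2.mem_iff.1 h with h | h
      · exact hnx (i2 - 1) (by omega) (by omega) h.symm
      · exact hnx i2 (by omega) (by omega) h.symm
    · have h3 : st M x A + (i2 - 1) + 1 = st M x A + i2 := by omega
      rw [h3]
      rfl
  by_cases hy1 : ∃ B, OnV M.toCyc B y ∧ OnV M.toCyc B (ww M x A i1)
  swap
  · right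
    refine ⟨gapE, ww M x A i1, ?_, hy1, _, Sym2.mem_mk_left _ _, hc1, hq1⟩
    have h1 : i1 = 1 := hJ1.resolve_left hy1
    subst h1
    refine ⟨A, st M x A, ?_⟩
    have h0 : M.bd A (st M x A) = x := hx0
    rw [h0]
    rfl
  by_cases hy2 : ∃ B, OnV M.toCyc B y ∧ OnV M.toCyc B (ww M x A i2)
  swap
  · right
    refine ⟨gapE, ww M x A i2, ?_, hy2, _, Sym2.mem_mk_right _ _, hc2, hq2⟩
    have h1 : i2 + 1 = M.len A := hJ2.resolve_left hy2
    refine ⟨A, st M x A + i2, ?_⟩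
    have h0 : M.bd A (st M x A + i2 + 1) = x := by
      rw [add_assoc, h1]; exact hxl
    rw [h0, Sym2.eq_swap]
    rfl
  left
  obtain ⟨C1, hC1y, hC1v⟩ := hy1
  obtain ⟨C2, hC2y, hC2v⟩ := hy2
  obtain ⟨B1, hB1, k1, hgp1, hv1, hg1⟩ := key _ ⟨A, hAx, hA1⟩
    ⟨C1, inJ C1 _ hC1y hC1v ⟨A, hAx, hA1⟩, hC1v⟩ _ (Sym2.mem_mk_left _ _) hc1 hq1
  obtain ⟨B2, hB2, k2, hgp2, hv2, hg2⟩ := key _ ⟨A, hAx, hA2⟩
    ⟨C2, inJ C2 _ hC2y hC2v ⟨A, hAx, hA2⟩, hC2v⟩ _ (Sym2.mem_mk_right _ _) hc2 hq2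
  refine ⟨⟨B1, k1⟩, hmem B1 hB1 k1 hgp1, ⟨B2, k2⟩, hmem B2 hB2 k2 hgp2, ?_, hg1, hg2⟩
  intro heq
  obtain ⟨h3, h4⟩ := Sigma.mk.inj_iff.1 heq
  subst h3
  have h5 : k1 = k2 := eq_of_heq h4
  subst h5
  have hAB : A ≠ B1 := by
    rintro rfl
    exact hT.ne _ ⟨hAx, hT.jy _ hB1⟩
  obtain ⟨-, -, -, hadj, -⟩ := h_IDX V F M.toCyc B1 (st M y B1)
  have fin : ∀ k, k1 < k → sh M x y B1 k → OnE M.toCyc B1 s(ww M y B1 k1, ww M y B1 k) →
      OnE M.toCyc A s(ww M y B1 k1, ww M y B1 k) → False := by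
    intro k hk hs hb hA
    rcases hadj k1 k hk hs.2.1 hb with h | ⟨h, -⟩
    · subst h
      exact hgp1.2.2 ⟨A, hAx, hA⟩
    · have := hgp1.1.1
      omega
  rcases hv1 with hv1 | ⟨k3, hk3, hs3, hno3, hv1⟩
  · rcases hv2 with hv2 | ⟨k4, hk4, hs4, -, hv2⟩
    · exact hne (hv1.trans hv2.symm)
    · have hp := M.poly A B1 hAB _ _ hne hA1 hA2 (by rw [hv1]; exact ⟨_, rfl⟩)
        (by rw [hv2]; exact ⟨_, rfl⟩)
      rw [hv1, hv2] at hp
      exact fin k4 hk4 hs4 hp.2.1 hp.1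
  · rcases hv2 with hv2 | ⟨k4, hk4, hs4, hno4, hv2⟩
    · have hp := M.poly A B1 hAB _ _ hne hA1 hA2 (by rw [hv1]; exact ⟨_, rfl⟩)
        (by rw [hv2]; exact ⟨_, rfl⟩)
      rw [hv1, hv2, Sym2.eq_swap] at hp
      exact fin k3 hk3 hs3 hp.2.1 hp.1
    · have h34 : k3 = k4 := by
        rcases lt_trichotomy k3 k4 with h | h | h
        · exact absurd hs3 (hno4 k3 hk3 h)
        · exact h
        · exact absurd hs4 (hno3 k4 hk4 h)
      subst h34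
      exact hne (hv1.trans hv2.symm)

end Pool.Agent.helper84.NR
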